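import Pool.Agent.Helper40.OL.Spec

/-!
# Permutation modules: basic maps
-/

set_option autoImplicit false

namespace Pool.Agent.Helper70.OL

open Pool.Agent.Helper40.OL

variable {G : Type} [Group G]

theorem asAlgebraHom_comm {V W : Type} [AddCommGroup V] [AddCommGroup W] (ρ : Representation ℤ G V)
    (σ : Representation ℤ G W) (f : V →ₗ[ℤ] W) (hf : ∀ g v, f (ρ g v) = σ g (f v))
    (r : MonoidAlgebra ℤ G) : ∀ v, f (ρ.asAlgebraHom r v) = σ.asAlgebraHom r (f v) := by
  induction r using MonoidAlgebra.induction_on with
  | of g =>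
    intro v
    rw [Representation.asAlgebraHom_of, Representation.asAlgebraHom_of, hf]
  | add a b ha hb =>
    intro v
    simp only [map_add, LinearMap.add_apply, ha, hb]
  | smul c a ha =>
    intro v
    simp only [map_smul, LinearMap.smul_apply, ha]

/-- intertwining maps are module maps -/
noncomputable def mkLin {V W : Type} [AddCommGroup V] [AddCommGroup W] (ρ : Representation ℤ G V)
    (σ : Representation ℤ G W) (f : V →ₗ[ℤ] W) (hf : ∀ g v, f (ρ g v) = σ g (f v)) :
    ρ.asModule →ₗ[MonoidAlgebra ℤ G] σ.asModule where
  toFun v := σ.asModuleEquiv.symm (f (ρ.asModuleEquiv v))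
  map_add' := by
    intro a b
    rw [map_add, map_add, map_add]
  map_smul' := by
    intro r v
    rw [Representation.asModuleEquiv_map_smul, asAlgebraHom_comm ρ σ f hf, RingHom.id_apply]
    apply σ.asModuleEquiv.injective
    rw [Representation.asModuleEquiv_map_smul]
    rfl

theorem mkLin_apply {V W : Type} [AddCommGroup V] [AddCommGroup W] (ρ : Representation ℤ G V)
    (σ : Representation ℤ G W) (f : V →ₗ[ℤ] W) (hf : ∀ g v, f (ρ g v) = σ g (f v)) (v : V) :
    mkLin ρ σ f hf v = f v := rfl

theorem permRep_single {X : Type} [MulAction G X] (g : G) (x : X) (a : ℤ) :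
    permRep G X g (Finsupp.single x a) = Finsupp.single (g • x) a :=
  Finsupp.mapDomain_single

theorem permRep_apply {X : Type} [MulAction G X] (g : G) (z : X →₀ ℤ) :
    permRep G X g z = Finsupp.mapDomain (fun x => g • x) z := rfl

/-- the map of permutation modules induced by an equivariant map -/
noncomputable def pmMap {X X' : Type} [MulAction G X] [MulAction G X'] (π : X → X')
    (hπ : ∀ (g : G) x, π (g • x) = g • π x) : PM G X →ₗ[MonoidAlgebra ℤ G] PM G X' :=
  mkLin (permRep G X) (permRep G X') (Finsupp.lmapDomain ℤ ℤ π) (by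
    intro g z
    simp only [Finsupp.lmapDomain_apply, permRep_apply]
    rw [← Finsupp.mapDomain_comp, ← Finsupp.mapDomain_comp]
    congr 1
    funext x
    exact hπ g x)

theorem pmMap_apply {X X' : Type} [MulAction G X] [MulAction G X'] (π : X → X')
    (hπ : ∀ (g : G) x, π (g • x) = g • π x) (z : X →₀ ℤ) :
    pmMap π hπ z = Finsupp.mapDomain π z := rfl

theorem pmMap_surjective {X X' : Type} [MulAction G X] [MulAction G X'] (π : X → X')
    (hπ : ∀ (g : G) x, π (g • x) = g • π x) (h : Function.Surjective π) :
    Function.Surjective (pmMap π hπ) :=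
  Finsupp.mapDomain_surjective h

theorem pmMap_injective {X X' : Type} [MulAction G X] [MulAction G X'] (π : X → X')
    (hπ : ∀ (g : G) x, π (g • x) = g • π x) (h : Function.Injective π) :
    Function.Injective (pmMap π hπ) :=
  Finsupp.mapDomain_injective h

/-- zero modules -/
theorem fpn_of_subsingleton {R : Type} [Ring R] (n : ℕ) :
    ∀ (M : Type) [AddCommGroup M] [Module R M] [Subsingleton M], FPn (R := R) n M := by
  induction n with
  | zero =>
    intro M _ _ _
    exact (inferInstance : Module.Finite R M)
  | succ n ih =>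
    intro M _ _ _
    refine ⟨0, 0, fun x => ⟨0, Subsingleton.elim _ _⟩, ?_⟩
    exact ih _

/-- finitely generated free modules -/
theorem fpn_free {R : Type} [Ring R] (n k : ℕ) : FPn (R := R) n (Fin k → R) := by
  cases n with
  | zero => exact (inferInstance : Module.Finite R (Fin k → R))
  | succ n =>
    refine ⟨k, LinearMap.id, Function.surjective_id, ?_⟩
    have : Subsingleton (LinearMap.ker (LinearMap.id : (Fin k → R) →ₗ[R] (Fin k → R))) := by
      rw [LinearMap.ker_id]
      infer_instance
    exact fpn_of_subsingleton n _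

end Pool.Agent.Helper70.OL
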