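import Pool.Agent.Helper70.OL.ZQ

/-!
# COSET: `ℤ[G/H]` for `H` free abelian of finite rank
-/

set_option autoImplicit false

namespace Pool.Agent.Helper70.OL

open Pool.Agent.Helper40.OL

theorem fpn_regular (hFPEQ : S_FPEQ) (G : Type) [Group G] (n : ℕ) :
    FPn (R := MonoidAlgebra ℤ G) n (PM G G) := by
  let f : (G →₀ ℤ) ≃ₗ[ℤ] MonoidAlgebra ℤ G := (MonoidAlgebra.coeffLinearEquiv ℤ).symm
  have hf : ∀ (g : G) (v : G →₀ ℤ), f (permRep G G g v) =
      Representation.ofMulAction ℤ G G g (f v) := by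
    intro g v
    rw [Representation.ofMulAction_def]
    simp only [f, LinearMap.comp_apply, LinearEquiv.coe_coe, LinearEquiv.apply_symm_apply]
    rfl
  let F := mkLin (permRep G G) (Representation.ofMulAction ℤ G G) f.toLinearMap hf
  have hF : Function.Bijective F := f.bijective
  let e1 : PM G G ≃ₗ[MonoidAlgebra ℤ G] MonoidAlgebra ℤ G :=
    (LinearEquiv.ofBijective F hF).trans Representation.ofMulActionSelfAsModuleEquiv
  let e2 : (Fin 1 → MonoidAlgebra ℤ G) ≃ₗ[MonoidAlgebra ℤ G] MonoidAlgebra ℤ G :=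
    LinearEquiv.funUnique (Fin 1) (MonoidAlgebra ℤ G) (MonoidAlgebra ℤ G)
  exact hFPEQ (MonoidAlgebra ℤ G) (Fin 1 → MonoidAlgebra ℤ G) (PM G G) (e2.trans e1.symm) n
    (fpn_free n 1)

section step

variable {G : Type} [Group G] (H : Subgroup G) {d : ℕ} (φ : H ≃* Multiplicative (Fin (d + 1) → ℤ))

/-- the first coordinate -/
def psi : H →* Multiplicative ℤ where
  toFun h := Multiplicative.ofAdd ((Multiplicative.toAdd (φ h)) 0)
  map_one' := by
    rw [map_one]
    rfl
  map_mul' a b := by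
    rw [map_mul]
    rfl

/-- the kernel of the first coordinate, as a subgroup of `G` -/
def Hp : Subgroup G := (psi H φ).ker.map H.subtype

theorem Hp_le : Hp H φ ≤ H := by
  rintro _ ⟨x, -, rfl⟩
  exact x.2

theorem mem_Hp {g : G} (hg : g ∈ H) : g ∈ Hp H φ ↔ psi H φ ⟨g, hg⟩ = 1 := by
  constructor
  · rintro ⟨x, hx, hxg⟩
    have : x = ⟨g, hg⟩ := Subtype.ext hxg
    rw [← this]
    exact hx
  · intro h
    exact ⟨⟨g, hg⟩, h, rfl⟩

theorem psi_surj_equiv : Nonempty (Hp H φ ≃* Multiplicative (Fin d → ℤ)) := by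
  let e1 : (psi H φ).ker ≃* Hp H φ :=
    Subgroup.equivMapOfInjective (psi H φ).ker H.subtype H.subtype_injective
  let θ : (psi H φ).ker →* Multiplicative (Fin d → ℤ) :=
    { toFun := fun h => Multiplicative.ofAdd (Fin.tail (Multiplicative.toAdd (φ h.1)))
      map_one' := by
        rw [OneMemClass.coe_one, map_one]
        rfl
      map_mul' := by
        intro a b
        rw [Subgroup.coe_mul, map_mul]
        rfl }
  have hθ : Function.Bijective θ := by
    constructor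
    · intro a b hab
      apply Subtype.ext
      apply φ.injective
      have ha : (Multiplicative.toAdd (φ a.1)) 0 = 0 := congrArg Multiplicative.toAdd a.2
      have hb : (Multiplicative.toAdd (φ b.1)) 0 = 0 := congrArg Multiplicative.toAdd b.2
      have hab' : Fin.tail (Multiplicative.toAdd (φ a.1)) =
        Fin.tail (Multiplicative.toAdd (φ b.1)) := congrArg Multiplicative.toAdd hab
      apply Multiplicative.toAdd.injective
      rw [← Fin.cons_self_tail (Multiplicative.toAdd (φ a.1)),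
        ← Fin.cons_self_tail (Multiplicative.toAdd (φ b.1)), ha, hb, hab']
    · intro w
      have hmem : φ.symm (Multiplicative.ofAdd (Fin.cons (0 : ℤ) (Multiplicative.toAdd w) :
          Fin (d + 1) → ℤ)) ∈ (psi H φ).ker := by
        rw [MonoidHom.mem_ker]
        show Multiplicative.ofAdd ((Multiplicative.toAdd (φ (φ.symm _))) 0) = 1
        rw [MulEquiv.apply_symm_apply]
        rfl
      refine ⟨⟨_, hmem⟩, ?_⟩
      show Multiplicative.ofAdd (Fin.tail (Multiplicative.toAdd (φ (φ.symm _)))) = w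
      rw [MulEquiv.apply_symm_apply]
      rfl
  exact ⟨e1.symm.trans (MulEquiv.ofBijective θ hθ)⟩

/-- the generator -/
def gen : H := φ.symm (Multiplicative.ofAdd (Pi.single 0 1))

theorem psi_gen : psi H φ (gen H φ) = Multiplicative.ofAdd 1 := by
  show Multiplicative.ofAdd ((Multiplicative.toAdd (φ (φ.symm _))) 0) = _
  rw [MulEquiv.apply_symm_apply]
  simp

include φ in
theorem comm_H (a b : H) : a * b = b * a := by
  apply φ.injective
  rw [map_mul, map_mul, mul_comm]

theorem conj_mem (c : H) {g : G} (hg : g ∈ Hp H φ) : (c : G)⁻¹ * g * c ∈ Hp H φ := by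
  have h1 : g ∈ H := Hp_le H φ hg
  have h2 := congrArg Subtype.val (comm_H H φ ⟨g, h1⟩ c)
  have h3 : g * (c : G) = c * g := h2
  rw [mul_assoc, h3, inv_mul_cancel_left]
  exact hg

/-- right multiplication -/
def rm (c : H) : G ⧸ Hp H φ → G ⧸ Hp H φ :=
  Quotient.map' (fun g => g * (c : G)) (by
    intro a b hab
    rw [QuotientGroup.leftRel_apply] at hab ⊢
    have := conj_mem H φ c hab
    have e : (a * (c : G))⁻¹ * (b * c) = (c : G)⁻¹ * (a⁻¹ * b) * c := by group
    rw [e]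
    exact this)

theorem rm_mk (c : H) (g : G) : rm H φ c (g : G ⧸ Hp H φ) = ((g * (c : G) : G) : G ⧸ Hp H φ) := rfl

/-- right multiplication as a permutation -/
def rmP : Multiplicative ℤ →* Equiv.Perm (G ⧸ Hp H φ) where
  toFun n :=
    { toFun := rm H φ ((gen H φ) ^ (Multiplicative.toAdd n))
      invFun := rm H φ ((gen H φ) ^ (-(Multiplicative.toAdd n)))
      left_inv := by
        intro x
        obtain ⟨g, rfl⟩ := QuotientGroup.mk_surjective x
        rw [rm_mk, rm_mk, mul_assoc, ← Subgroup.coe_mul, ← zpow_add, add_neg_cancel, zpow_zero,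
          Subgroup.coe_one, mul_one]
      right_inv := by
        intro x
        obtain ⟨g, rfl⟩ := QuotientGroup.mk_surjective x
        rw [rm_mk, rm_mk, mul_assoc, ← Subgroup.coe_mul, ← zpow_add, neg_add_cancel, zpow_zero,
          Subgroup.coe_one, mul_one] }
  map_one' := by
    ext x
    obtain ⟨g, rfl⟩ := QuotientGroup.mk_surjective x
    show rm H φ ((gen H φ) ^ (0 : ℤ)) (g : G ⧸ Hp H φ) = _
    rw [rm_mk, zpow_zero, Subgroup.coe_one, mul_one]
    rfl
  map_mul' a b := by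
    ext x
    obtain ⟨g, rfl⟩ := QuotientGroup.mk_surjective x
    show rm H φ ((gen H φ) ^ (Multiplicative.toAdd a + Multiplicative.toAdd b)) (g : G ⧸ Hp H φ) =
      rm H φ ((gen H φ) ^ (Multiplicative.toAdd a)) (rm H φ ((gen H φ) ^ (Multiplicative.toAdd b))
        (g : G ⧸ Hp H φ))
    rw [rm_mk, rm_mk, rm_mk, mul_assoc, ← Subgroup.coe_mul, ← zpow_add,
      add_comm (Multiplicative.toAdd b)]

theorem rmP_zpow (n : ℤ) (g : G) : ((rmP H φ (Multiplicative.ofAdd 1)) ^ n) (g : G ⧸ Hp H φ) =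
    ((g * ((gen H φ ^ n : H) : G) : G) : G ⧸ Hp H φ) := by
  rw [← map_zpow]
  have : (Multiplicative.ofAdd (1 : ℤ)) ^ n = Multiplicative.ofAdd n := by
    rw [← ofAdd_zsmul, smul_eq_mul, mul_one]
  rw [this]
  rfl

theorem step (hZQ : S_ZQ) (h : ∀ n, FPn (R := MonoidAlgebra ℤ G) n (PM G (G ⧸ Hp H φ))) (n : ℕ) :
    FPn (R := MonoidAlgebra ℤ G) n (PM G (G ⧸ H)) := by
  refine hZQ G (G ⧸ Hp H φ) (G ⧸ H) (Subgroup.quotientMapOfLE (Hp_le H φ))
    (rmP H φ (Multiplicative.ofAdd 1)) ?_ ?_ ?_ ?_ ?_ h n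
  · intro g x
    obtain ⟨a, rfl⟩ := QuotientGroup.mk_surjective x
    rfl
  · intro x
    obtain ⟨a, rfl⟩ := QuotientGroup.mk_surjective x
    exact ⟨(a : G ⧸ Hp H φ), rfl⟩
  · intro g x
    obtain ⟨a, rfl⟩ := QuotientGroup.mk_surjective x
    have h1 := rmP_zpow H φ 1 a
    have h2 := rmP_zpow H φ 1 (g * a)
    rw [zpow_one] at h1 h2
    show (rmP H φ (Multiplicative.ofAdd 1)) ((g * a : G) : G ⧸ Hp H φ) =
      g • (rmP H φ (Multiplicative.ofAdd 1)) (a : G ⧸ Hp H φ)
    rw [h1, h2, mul_assoc]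
    rfl
  · intro x y
    obtain ⟨a, rfl⟩ := QuotientGroup.mk_surjective x
    obtain ⟨b, rfl⟩ := QuotientGroup.mk_surjective y
    show ((a : G) : G ⧸ H) = ((b : G) : G ⧸ H) ↔ _
    rw [QuotientGroup.eq]
    constructor
    · intro hab
      refine ⟨Multiplicative.toAdd (psi H φ ⟨a⁻¹ * b, hab⟩), ?_⟩
      rw [rmP_zpow]
      symm
      rw [QuotientGroup.eq]
      set m : ℤ := Multiplicative.toAdd (psi H φ ⟨a⁻¹ * b, hab⟩) with hm
      have e1 : (a * ((gen H φ ^ m : H) : G))⁻¹ * b =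
          (((gen H φ ^ m)⁻¹ * ⟨a⁻¹ * b, hab⟩ : H) : G) := by
        rw [Subgroup.coe_mul, Subgroup.coe_inv]
        group
      rw [e1, mem_Hp H φ (((gen H φ ^ m)⁻¹ * ⟨a⁻¹ * b, hab⟩ : H)).2]
      show psi H φ ((gen H φ ^ m)⁻¹ * ⟨a⁻¹ * b, hab⟩) = 1
      rw [map_mul, map_inv, map_zpow, psi_gen]
      have e2 : (Multiplicative.ofAdd (1 : ℤ)) ^ m = Multiplicative.ofAdd m := by
        rw [← ofAdd_zsmul, smul_eq_mul, mul_one]
      rw [e2, hm, ofAdd_toAdd, inv_mul_cancel]
    · rintro ⟨m, hm⟩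
      rw [rmP_zpow] at hm
      have h1 := Hp_le H φ (QuotientGroup.eq.1 hm.symm)
      have e1 : a⁻¹ * b = ((gen H φ ^ m : H) : G) * ((a * ((gen H φ ^ m : H) : G))⁻¹ * b) := by
        group
      rw [e1]
      exact H.mul_mem (gen H φ ^ m : H).2 h1
  · intro m x hx
    obtain ⟨a, rfl⟩ := QuotientGroup.mk_surjective x
    rw [rmP_zpow] at hx
    have h1 := QuotientGroup.eq.1 hx
    have e1 : (a * ((gen H φ ^ m : H) : G))⁻¹ * a = (((gen H φ ^ m)⁻¹ : H) : G) := by
      rw [Subgroup.coe_inv]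
      group
    rw [e1, mem_Hp H φ ((gen H φ ^ m)⁻¹ : H).2] at h1
    have h2 : psi H φ ((gen H φ ^ m)⁻¹) = 1 := h1
    rw [map_inv, map_zpow, psi_gen, ← ofAdd_zsmul, smul_eq_mul, mul_one, inv_eq_one] at h2
    exact congrArg Multiplicative.toAdd h2

end step

theorem coset_thm (hZQ : S_ZQ) (hFPEQ : S_FPEQ) : S_COSET := by
  intro G _ H d
  induction d generalizing H with
  | zero =>
    intro φ n
    have hH : H = ⊥ := by
      rw [Subgroup.eq_bot_iff_forall]
      intro x hx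
      have h1 : (⟨x, hx⟩ : H) = 1 := φ.injective (Subsingleton.elim _ _)
      exact congrArg Subtype.val h1
    subst hH
    let e : G ≃ G ⧸ (⊥ : Subgroup G) := (QuotientGroup.quotientBot (G := G)).symm.toEquiv
    refine fpn_equiv hFPEQ e ?_ n (fpn_regular hFPEQ G n)
    intro g x
    rfl
  | succ d ih =>
    intro φ n
    obtain ⟨φ'⟩ := psi_surj_equiv H φ
    exact step H φ hZQ (fun m => ih (Hp H φ) φ' m) n

end Pool.Agent.Helper70.OL
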