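import Pool.Agent.Helper70.OL.PMSUM

/-!
# ORB: finitely many orbits, free abelian stabilisers
-/

set_option autoImplicit false

namespace Pool.Agent.Helper70.OL

open Pool.Agent.Helper40.OL

theorem orb_thm (hTWO : S_TWO) (hFPEQ : S_FPEQ) (hCOSET : S_COSET) : S_ORB := by
  classical
  intro G _ X _ hfin hst n
  have hc : ∀ (g : G) (x : X), (Quotient.mk (MulAction.orbitRel G X) (g • x) :
      MulAction.orbitRel.Quotient G X) = Quotient.mk (MulAction.orbitRel G X) x := by
    intro g x
    exact Quotient.sound ⟨g, rfl⟩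
  refine (pmsum_thm hTWO hFPEQ G).2 X (MulAction.orbitRel.Quotient G X)
    (fun x => Quotient.mk (MulAction.orbitRel G X) x) hc n ?_
  intro i act hact
  obtain ⟨x₀, rfl⟩ := Quotient.exists_rep i
  obtain ⟨d, ⟨φ⟩⟩ := hst x₀
  have h1 := hCOSET G (MulAction.stabilizer G x₀) d φ n
  -- the orbit map
  have hmem : ∀ q : G ⧸ MulAction.stabilizer G x₀,
      (Quotient.mk (MulAction.orbitRel G X) (MulAction.ofQuotientStabilizer G x₀ q) :
        MulAction.orbitRel.Quotient G X) = Quotient.mk (MulAction.orbitRel G X) x₀ := by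
    intro q
    obtain ⟨g, rfl⟩ := QuotientGroup.mk_surjective q
    rw [MulAction.ofQuotientStabilizer_mk]
    exact hc g x₀
  let F : G ⧸ MulAction.stabilizer G x₀ →
      {x : X // (Quotient.mk (MulAction.orbitRel G X) x : MulAction.orbitRel.Quotient G X) =
        Quotient.mk (MulAction.orbitRel G X) x₀} :=
    fun q => ⟨MulAction.ofQuotientStabilizer G x₀ q, hmem q⟩
  have hF : Function.Bijective F := by
    constructor
    · intro a b hab
      exact MulAction.injective_ofQuotientStabilizer G x₀ (congrArg Subtype.val hab)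
    · rintro ⟨x, hx⟩
      obtain ⟨g, hg⟩ := Quotient.exact hx
      refine ⟨(g : G ⧸ MulAction.stabilizer G x₀), Subtype.ext ?_⟩
      show MulAction.ofQuotientStabilizer G x₀ (g : G ⧸ MulAction.stabilizer G x₀) = x
      rw [MulAction.ofQuotientStabilizer_mk]
      exact hg
  refine fpn_equiv hFPEQ (Equiv.ofBijective F hF) ?_ n h1
  intro g q
  apply Subtype.ext
  rw [hact]
  show MulAction.ofQuotientStabilizer G x₀ (g • q) = g • MulAction.ofQuotientStabilizer G x₀ q
  exact MulAction.ofQuotientStabilizer_smul G x₀ g q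

end Pool.Agent.Helper70.OL
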