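import Pool.Agent.Helper70.OL.Base

/-!
# PMSUM: equivariant bijections and finite disjoint unions
-/

set_option autoImplicit false

namespace Pool.Agent.Helper70.OL

open Pool.Agent.Helper40.OL

variable {G : Type} [Group G]

/-- equivariant bijections -/
theorem fpn_equiv (hFPEQ : S_FPEQ) {X X' : Type} [MulAction G X] [MulAction G X'] (e : X ≃ X')
    (he : ∀ (g : G) x, e (g • x) = g • e x) (n : ℕ)
    (h : FPn (R := MonoidAlgebra ℤ G) n (PM G X)) : FPn (R := MonoidAlgebra ℤ G) n (PM G X') := by
  have h1 : Function.Bijective (pmMap e he) :=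
    ⟨pmMap_injective e he e.injective, pmMap_surjective e he e.surjective⟩
  exact hFPEQ (MonoidAlgebra ℤ G) (PM G X) (PM G X') (LinearEquiv.ofBijective _ h1) n h

/-- the action on an invariant subset -/
@[reducible] def subAct (X : Type) [MulAction G X] (p : X → Prop)
    (hp : ∀ (g : G) x, p x → p (g • x)) : MulAction G {x // p x} where
  smul g x := ⟨g • x.1, hp g x.1 x.2⟩
  one_smul x := Subtype.ext (one_smul G x.1)
  mul_smul g h x := Subtype.ext (mul_smul g h x.1)

/-- splitting off an invariant subset -/
theorem fpn_split (hTWO : S_TWO) (X : Type) [MulAction G X] (p : X → Prop)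
    (i1 : MulAction G {x // p x}) (i2 : MulAction G {x // ¬ p x})
    (h1 : ∀ (g : G) (x : {x // p x}), ((g • x : {x // p x}) : X) = g • (x : X))
    (h2 : ∀ (g : G) (x : {x // ¬ p x}), ((g • x : {x // ¬ p x}) : X) = g • (x : X)) (n : ℕ)
    (f1 : FPn (R := MonoidAlgebra ℤ G) n (PM G {x // p x}))
    (f2 : FPn (R := MonoidAlgebra ℤ G) n (PM G {x // ¬ p x})) :
    FPn (R := MonoidAlgebra ℤ G) n (PM G X) := by
  classical
  have hp : ∀ (g : G) x, p (g • x) ↔ p x := by
    intro g x
    constructor
    · intro h
      have := (g⁻¹ • (⟨g • x, h⟩ : {x // p x})).2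
      rw [h1] at this
      simpa using this
    · intro h
      have := (g • (⟨x, h⟩ : {x // p x})).2
      rwa [h1] at this
  let incl : PM G {x // p x} →ₗ[MonoidAlgebra ℤ G] PM G X := pmMap Subtype.val h1
  let rst : (X →₀ ℤ) →ₗ[ℤ] ({x // ¬ p x} →₀ ℤ) := Finsupp.lsubtypeDomain {x | ¬ p x}
  have hrst : ∀ (g : G) (v : X →₀ ℤ),
      rst (permRep G X g v) = permRep G {x // ¬ p x} g (rst v) := by
    intro g v
    refine Finsupp.ext fun y => ?_
    have e1 : rst (permRep G X g v) y = (permRep G X g v) y.1 := rfl
    have e2 : (permRep G X g v) y.1 = v (g⁻¹ • y.1) := by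
      rw [permRep_apply]
      have : y.1 = g • (g⁻¹ • y.1) := by simp
      conv_lhs => rw [this]
      exact Finsupp.mapDomain_apply (MulAction.injective g) v (g⁻¹ • y.1)
    have e3 : permRep G {x // ¬ p x} g (rst v) y = rst v (g⁻¹ • y) := by
      rw [permRep_apply]
      have : y = g • (g⁻¹ • y) := by simp
      conv_lhs => rw [this]
      exact Finsupp.mapDomain_apply (MulAction.injective g) (rst v) (g⁻¹ • y)
    have e4 : rst v (g⁻¹ • y) = v (g⁻¹ • y.1) := by
      have : rst v (g⁻¹ • y) = v (g⁻¹ • y : {x // ¬ p x}).1 := rfl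
      rw [this, h2]
    rw [e1, e2, e3, e4]
  let q : PM G X →ₗ[MonoidAlgebra ℤ G] PM G {x // ¬ p x} :=
    mkLin (permRep G X) (permRep G {x // ¬ p x}) rst hrst
  have hq : ∀ v : X →₀ ℤ, q v = Finsupp.subtypeDomain (fun x => ¬ p x) v := fun v => rfl
  have hi : Function.Injective incl := pmMap_injective _ h1 Subtype.val_injective
  have hqs : Function.Surjective q := by
    intro w
    refine ⟨Finsupp.mapDomain Subtype.val (w : {x // ¬ p x} →₀ ℤ), ?_⟩
    rw [hq]
    refine Finsupp.ext fun y => ?_
    rw [Finsupp.subtypeDomain_apply]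
    exact Finsupp.mapDomain_apply Subtype.val_injective (w : {x // ¬ p x} →₀ ℤ) y
  have hex : LinearMap.range incl = LinearMap.ker q := by
    apply le_antisymm
    · rintro _ ⟨w, rfl⟩
      rw [LinearMap.mem_ker]
      have e1 : incl w = Finsupp.mapDomain Subtype.val (w : {x // p x} →₀ ℤ) := rfl
      rw [e1, hq]
      refine Finsupp.ext fun y => ?_
      rw [Finsupp.subtypeDomain_apply]
      refine Finsupp.mapDomain_of_notMem_range _ _ ?_
      rintro ⟨z, hz⟩
      exact y.2 (hz ▸ z.2)
    · intro v hv
      rw [LinearMap.mem_ker] at hv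
      have hv' : Finsupp.subtypeDomain (fun x => ¬ p x) (v : X →₀ ℤ) = 0 := hv
      refine ⟨Finsupp.subtypeDomain p (v : X →₀ ℤ), ?_⟩
      have e1 : incl (Finsupp.subtypeDomain p (v : X →₀ ℤ)) =
        Finsupp.mapDomain Subtype.val (Finsupp.subtypeDomain p (v : X →₀ ℤ)) := rfl
      rw [e1]
      refine Finsupp.ext fun x => ?_
      by_cases hx : p x
      · exact Finsupp.mapDomain_apply Subtype.val_injective
          (Finsupp.subtypeDomain p (v : X →₀ ℤ)) ⟨x, hx⟩
      · have e2 : @DFunLike.coe (X →₀ ℤ) X (fun _ => ℤ) _ v x = 0 :=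
          DFunLike.congr_fun hv' (⟨x, hx⟩ : {x // ¬ p x})
        have e3 : Finsupp.mapDomain Subtype.val (Finsupp.subtypeDomain p (v : X →₀ ℤ)) x = 0 := by
          refine Finsupp.mapDomain_of_notMem_range _ _ ?_
          rintro ⟨z, hz⟩
          exact hx (hz ▸ z.2)
        rw [e3]
        exact e2.symm
  exact (hTWO (MonoidAlgebra ℤ G) (PM G {x // p x}) (PM G X) (PM G {x // ¬ p x}) incl q hi hqs
    hex n).1 f1 f2

theorem pmsum_thm (hTWO : S_TWO) (hFPEQ : S_FPEQ) : S_PMSUM := by
  classical
  intro G _
  refine ⟨fun X X' _ _ e he n h => fpn_equiv hFPEQ e he n h, ?_⟩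
  intro X ι _ _ c hc n h
  have := Fintype.ofFinite ι
  -- induction over finite sets of indices
  have key : ∀ J : Finset ι, ∀ (act : MulAction G {x // c x ∈ J}),
      (∀ (g : G) (x : {x // c x ∈ J}), ((g • x : {x // c x ∈ J}) : X) = g • (x : X)) →
      FPn (R := MonoidAlgebra ℤ G) n (PM G {x // c x ∈ J}) := by
    intro J
    induction J using Finset.induction_on with
    | empty =>
      intro act hact
      have : Subsingleton (PM G {x // c x ∈ (∅ : Finset ι)}) := by
        have hE : IsEmpty {x // c x ∈ (∅ : Finset ι)} := ⟨fun x => by simpa using x.2⟩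
        exact (inferInstance : Subsingleton ({x // c x ∈ (∅ : Finset ι)} →₀ ℤ))
      exact fpn_of_subsingleton n _
    | insert a J ha ih =>
      intro act hact
      -- the subset of the points over `a`
      let p : {x // c x ∈ insert a J} → Prop := fun x => c x.1 = a
      have hp1 : ∀ (g : G) (x : {x // c x ∈ insert a J}), p x → p (g • x) := by
        intro g x hx
        show c ((g • x : {x // c x ∈ insert a J}) : X) = a
        rw [hact, hc]
        exact hx
      have hp2 : ∀ (g : G) (x : {x // c x ∈ insert a J}), ¬ p x → ¬ p (g • x) := by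
        intro g x hx hx'
        apply hx
        have h3 : c ((g • x : {x // c x ∈ insert a J}) : X) = a := hx'
        rw [hact, hc] at h3
        exact h3
      let i1 : MulAction G {x // p x} := subAct _ p hp1
      let i2 : MulAction G {x // ¬ p x} := subAct _ (fun x => ¬ p x) hp2
      refine fpn_split hTWO {x // c x ∈ insert a J} p i1 i2 (fun g x => rfl) (fun g x => rfl) n
        ?_ ?_
      · let j1 : MulAction G {x // c x = a} := subAct X (fun x => c x = a)
          (fun g x hx => by rw [hc]; exact hx)
        let e : {x // c x = a} ≃ {x // p x} :=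
          { toFun := fun x => ⟨⟨x.1, by rw [x.2]; exact Finset.mem_insert_self _ _⟩, x.2⟩
            invFun := fun x => ⟨x.1.1, x.2⟩
            left_inv := fun x => rfl
            right_inv := fun x => rfl }
        refine fpn_equiv hFPEQ e ?_ n (h a j1 (fun g x => rfl))
        intro g x
        apply Subtype.ext
        apply Subtype.ext
        show g • (x : X) = (((g • (e x) : {x // p x}) : {x // c x ∈ insert a J}) : X)
        have e5 : ((g • (e x) : {x // p x}) : {x // c x ∈ insert a J}) =
          g • ((e x : {x // p x}) : {x // c x ∈ insert a J}) := rfl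
        rw [e5, hact]
        rfl
      · let j2 : MulAction G {x // c x ∈ J} := subAct X (fun x => c x ∈ J)
          (fun g x hx => by rw [hc]; exact hx)
        let e : {x // c x ∈ J} ≃ {x // ¬ p x} :=
          { toFun := fun x => ⟨⟨x.1, Finset.mem_insert_of_mem x.2⟩, fun h0 => ha (by
              have h1 : c x.1 = a := h0
              rw [← h1]; exact x.2)⟩
            invFun := fun x => ⟨x.1.1, (Finset.mem_insert.1 x.1.2).resolve_left x.2⟩
            left_inv := fun x => rfl
            right_inv := fun x => rfl }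
        refine fpn_equiv hFPEQ e ?_ n (ih j2 (fun g x => rfl))
        intro g x
        apply Subtype.ext
        apply Subtype.ext
        show g • (x : X) = (((g • (e x) : {x // ¬ p x}) : {x // c x ∈ insert a J}) : X)
        have e5 : ((g • (e x) : {x // ¬ p x}) : {x // c x ∈ insert a J}) =
          g • ((e x : {x // ¬ p x}) : {x // c x ∈ insert a J}) := rfl
        rw [e5, hact]
        rfl
  let act : MulAction G {x // c x ∈ (Finset.univ : Finset ι)} :=
    subAct X (fun x => c x ∈ (Finset.univ : Finset ι)) (fun g x _ => Finset.mem_univ _)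
  have h1 := key Finset.univ act (fun g x => rfl)
  let e : {x // c x ∈ (Finset.univ : Finset ι)} ≃ X :=
    { toFun := fun x => x.1
      invFun := fun x => ⟨x, Finset.mem_univ _⟩
      left_inv := fun x => rfl
      right_inv := fun x => rfl }
  exact fpn_equiv hFPEQ e (fun g x => rfl) n h1

end Pool.Agent.Helper70.OL
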