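import Pool.Agent.Helper70.OL.PMSUM

/-!
# ZQ: the quotient by a free action of `ℤ`
-/

set_option autoImplicit false

namespace Pool.Agent.Helper70.OL

open Pool.Agent.Helper40.OL

theorem zq_thm (hTWO : S_TWO) : S_ZQ := by
  classical
  intro G _ X X' _ _ π t hπ hπs ht hfib hfree hX
  -- equivariance of `t`
  let B : (X →₀ ℤ) →ₗ[ℤ] (X →₀ ℤ) := Finsupp.lmapDomain ℤ ℤ t - LinearMap.id
  have hB1 : ∀ x : X, ∀ a : ℤ, B (Finsupp.single x a) =
      Finsupp.single (t x) a - Finsupp.single x a := by
    intro x a
    simp only [B, LinearMap.sub_apply, Finsupp.lmapDomain_apply, Finsupp.mapDomain_single,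
      LinearMap.id_apply]
  have hBe : ∀ (g : G) (v : X →₀ ℤ), B (permRep G X g v) = permRep G X g (B v) := by
    intro g v
    simp only [B, LinearMap.sub_apply, Finsupp.lmapDomain_apply, LinearMap.id_apply, map_sub,
      permRep_apply]
    rw [← Finsupp.mapDomain_comp, ← Finsupp.mapDomain_comp]
    congr 2
    funext x
    exact ht g x
  let i : PM G X →ₗ[MonoidAlgebra ℤ G] PM G X := mkLin (permRep G X) (permRep G X) B hBe
  let q : PM G X →ₗ[MonoidAlgebra ℤ G] PM G X' := pmMap π hπ
  -- injectivity
  have hinj : Function.Injective B := by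
    rw [injective_iff_map_eq_zero]
    intro z hz
    have hz1 : Finsupp.mapDomain t z = z := by
      have : Finsupp.mapDomain t z - z = 0 := hz
      exact sub_eq_zero.1 this
    have hz2 : ∀ x, z (t x) = z x := by
      intro x
      conv_lhs => rw [← hz1]
      exact Finsupp.mapDomain_apply t.injective z x
    have hz3 : ∀ (n : ℕ) x, z ((t ^ n) x) = z x := by
      intro n
      induction n with
      | zero => intro x; rfl
      | succ n ih =>
        intro x
        rw [pow_succ, Equiv.Perm.mul_apply, ih, hz2]
    by_contra hne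
    obtain ⟨x, hx⟩ : ∃ x, z x ≠ 0 := by
      by_contra hcon
      apply hne
      refine Finsupp.ext fun x => ?_
      by_contra h
      exact hcon ⟨x, h⟩
    have hinjn : Function.Injective (fun n : ℕ => (t ^ n) x) := by
      intro a b hab
      have h1 : (t ^ ((b : ℤ) - a)) x = x := by
        have h2 : (t ^ (b : ℤ)) x = (t ^ (a : ℤ)) x := by
          rw [zpow_natCast, zpow_natCast]
          exact hab.symm
        rw [sub_eq_neg_add, zpow_add, Equiv.Perm.mul_apply, h2, ← Equiv.Perm.mul_apply,
          ← zpow_add, neg_add_cancel, zpow_zero, Equiv.Perm.one_apply]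
      have h2 := hfree _ _ h1
      omega
    have hsub : Set.range (fun n : ℕ => (t ^ n) x) ⊆ (z.support : Set X) := by
      rintro _ ⟨n, rfl⟩
      simp only [Finset.mem_coe, Finsupp.mem_support_iff]
      rw [hz3]
      exact hx
    exact (Set.infinite_range_of_injective hinjn) (z.support.finite_toSet.subset hsub)
  -- exactness
  let Q : Submodule ℤ (X →₀ ℤ) := LinearMap.range B
  have hQ1 : ∀ (x : X), Finsupp.single (t x) (1 : ℤ) - Finsupp.single x 1 ∈ Q := by
    intro x
    exact ⟨Finsupp.single x 1, hB1 x 1⟩
  have hQn : ∀ (n : ℤ) (x : X), Finsupp.single ((t ^ n) x) (1 : ℤ) - Finsupp.single x 1 ∈ Q := by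
    intro n
    induction n using Int.induction_on with
    | zero => intro x; simp
    | succ n ih =>
      intro x
      have h1 := hQ1 ((t ^ (n : ℤ)) x)
      have h2 := Q.add_mem h1 (ih x)
      have h3 : (t ^ ((n : ℤ) + 1)) x = t ((t ^ (n : ℤ)) x) := by
        rw [add_comm, zpow_add, zpow_one, Equiv.Perm.mul_apply]
      rw [h3]
      simpa using h2
    | pred n ih =>
      intro x
      have h3 : t ((t ^ (-(n : ℤ) - 1)) x) = (t ^ (-(n : ℤ))) x := by
        rw [← Equiv.Perm.mul_apply, ← zpow_one_add]
        congr 2
        ring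
      have h1 := hQ1 ((t ^ (-(n : ℤ) - 1)) x)
      rw [h3] at h1
      have h2 := Q.sub_mem (ih x) h1
      have h4 : Finsupp.single ((t ^ (-(n : ℤ))) x) (1 : ℤ) - Finsupp.single x 1 -
          (Finsupp.single ((t ^ (-(n : ℤ))) x) (1 : ℤ) -
            Finsupp.single ((t ^ (-(n : ℤ) - 1)) x) 1) =
          Finsupp.single ((t ^ (-(n : ℤ) - 1)) x) 1 - Finsupp.single x 1 := by abel
      rwa [h4] at h2
  obtain ⟨s, hs⟩ := hπs.hasRightInverse
  have hσ : ∀ z : X →₀ ℤ, z - Finsupp.mapDomain s (Finsupp.mapDomain π z) ∈ Q := by
    intro z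
    induction z using Finsupp.induction_linear with
    | zero => simp
    | add a b ha hb =>
      rw [Finsupp.mapDomain_add, Finsupp.mapDomain_add]
      have := Q.add_mem ha hb
      have e : a + b - (Finsupp.mapDomain s (Finsupp.mapDomain π a) +
          Finsupp.mapDomain s (Finsupp.mapDomain π b)) =
          a - Finsupp.mapDomain s (Finsupp.mapDomain π a) +
          (b - Finsupp.mapDomain s (Finsupp.mapDomain π b)) := by abel
      rwa [e]
    | single x a =>
      rw [Finsupp.mapDomain_single, Finsupp.mapDomain_single]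
      obtain ⟨n, hn⟩ := (hfib (s (π x)) x).1 (hs (π x))
      have h1 := hQn n (s (π x))
      rw [← hn] at h1
      have h2 := Q.smul_mem a h1
      rw [smul_sub, Finsupp.smul_single, Finsupp.smul_single, smul_eq_mul, mul_one] at h2
      exact h2
  have hker : ∀ v : X →₀ ℤ, Finsupp.mapDomain π v = 0 → v ∈ Q := by
    intro v hv'
    have h1 := hσ v
    rw [hv', Finsupp.mapDomain_zero, sub_zero] at h1
    exact h1
  have hex : LinearMap.range i = LinearMap.ker q := by
    apply le_antisymm
    · rintro _ ⟨w, rfl⟩
      rw [LinearMap.mem_ker]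
      have e1 : ∀ w : X →₀ ℤ, Finsupp.mapDomain π (B w) = 0 := by
        intro w
        induction w using Finsupp.induction_linear with
        | zero => simp
        | add a b ha hb => rw [map_add, Finsupp.mapDomain_add, ha, hb, add_zero]
        | single x a =>
          rw [hB1]
          have e2 : Finsupp.mapDomain π (Finsupp.single (t x) a - Finsupp.single x a) =
            Finsupp.mapDomain π (Finsupp.single (t x) a) -
              Finsupp.mapDomain π (Finsupp.single x a) :=
            map_sub (Finsupp.lmapDomain ℤ ℤ π) _ _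
          rw [e2, Finsupp.mapDomain_single, Finsupp.mapDomain_single]
          have e3 : π (t x) = π x := by
            refine ((hfib x (t x)).2 ⟨1, ?_⟩).symm
            rw [zpow_one]
          rw [e3, sub_self]
      exact e1 w
    · intro v hv
      rw [LinearMap.mem_ker] at hv
      exact hker v hv
  have hqs : Function.Surjective q := pmMap_surjective π hπ hπs
  have hT := hTWO (MonoidAlgebra ℤ G) (PM G X) (PM G X) (PM G X') i q hinj hqs hex
  intro n
  cases n with
  | succ n => exact (hT n).2.1 (hX n) (hX (n + 1))
  | zero =>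
    have h0 : Module.Finite (MonoidAlgebra ℤ G) (PM G X) := hX 0
    exact Module.Finite.of_surjective q hqs

end Pool.Agent.Helper70.OL
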